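import Pool.Agent.H28.GU.TargetsC

/-!
# The energy of the graph of the frequencies
-/

set_option autoImplicit false

open Finset Filter Topology
open scoped Pointwise

namespace Pool.Agent.H37.GU

open Pool.Agent.H28.GU

theorem cs_fiber {ι κ : Type} [DecidableEq ι] [Fintype κ] [DecidableEq κ] (P : Finset ι)
    (g : ι → κ) (F : κ → ℝ) :
    (∑ x ∈ P, F (g x)) ^ 2 ≤
      (((P ×ˢ P).filter (fun z => g z.1 = g z.2)).card : ℝ) * ∑ y, F y ^ 2 := by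
  have h1 : ∑ x ∈ P, F (g x) = ∑ y, ((P.filter (fun x => g x = y)).card : ℝ) * F y := by
    rw [← Finset.sum_fiberwise P g]
    refine Finset.sum_congr rfl (fun y _ => ?_)
    rw [Finset.sum_congr rfl (fun x hx => by rw [(Finset.mem_filter.1 hx).2]), Finset.sum_const,
      nsmul_eq_mul]
  have h2 : (((P ×ˢ P).filter (fun z => g z.1 = g z.2)).card : ℝ) =
      ∑ y, ((P.filter (fun x => g x = y)).card : ℝ) ^ 2 := by
    rw [Finset.card_eq_sum_card_fiberwise (f := fun z => g z.1) (t := Finset.univ)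
      (fun _ _ => Finset.mem_coe.2 (Finset.mem_univ _))]
    push_cast
    refine Finset.sum_congr rfl (fun y _ => ?_)
    rw [← Nat.cast_pow, sq, ← Finset.card_product]
    congr 2
    ext ⟨a, b⟩
    simp only [Finset.mem_filter, Finset.mem_product]
    constructor
    · rintro ⟨⟨⟨h1, h2⟩, h3⟩, h4⟩
      exact ⟨⟨h1, h4⟩, h2, h3.symm.trans h4⟩
    · rintro ⟨⟨h1, h4⟩, h2, h3⟩
      exact ⟨⟨⟨h1, h2⟩, h4.trans h3.symm⟩, h4⟩
  rw [h1, h2]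
  exact Finset.sum_mul_sq_le_sq_mul_sq _ _ _

theorem exists_phase (z : ℂ) : ∃ c : ℂ, ‖c‖ ≤ 1 ∧ c * z = ((‖z‖ : ℝ) : ℂ) := by
  by_cases hz : z = 0
  · exact ⟨0, by simp, by simp [hz]⟩
  · have h1 : (‖z‖ : ℝ) ≠ 0 := norm_ne_zero_iff.2 hz
    have h2 : ((‖z‖ : ℝ) : ℂ) ≠ 0 := by exact_mod_cast h1
    refine ⟨(starRingEnd ℂ) z / ((‖z‖ : ℝ) : ℂ), ?_, ?_⟩
    · rw [norm_div, RCLike.norm_conj, Complex.norm_real, norm_norm, div_self h1]
    · rw [div_mul_eq_mul_div, div_eq_iff h2, mul_comm, Complex.mul_conj']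
      ring

variable {q : ℕ} [NeZero q]

/-- the product of `u` and its shift -/
def ww (u : ZMod q → ℝ) (h n : ZMod q) : ℝ := u n * u (n + h)

theorem hat_shift (u : ZMod q → ℝ) (s s' ξ : ZMod q) :
    ‖hat (ww u (s' - s)) ξ‖ =
      ‖∑ n : ZMod q, ((u (n + s) : ℝ) : ℂ) * ((u (n + s') : ℝ) : ℂ) * ZMod.stdAddChar (n * ξ)‖ := by
  have h1 : hat (ww u (s' - s)) ξ = ZMod.stdAddChar (s * ξ) *
      ∑ n : ZMod q, ((u (n + s) : ℝ) : ℂ) * ((u (n + s') : ℝ) : ℂ) * ZMod.stdAddChar (n * ξ) := by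
    rw [Finset.mul_sum]
    unfold hat ww
    refine (Fintype.sum_equiv (Equiv.addRight s) _ _ (fun n => ?_)).symm
    rw [Equiv.coe_addRight, add_mul, AddChar.map_add_eq_mul,
      show n + s + (s' - s) = n + s' by abel]
    push_cast
    ring
  rw [h1, norm_mul, AddChar.norm_apply, one_mul]

theorem norm_sq_expand (S : Finset (ZMod q)) (c : ZMod q → ℂ) (u : ZMod q → ℝ)
    (τ : ZMod q → ZMod q) (hc : ∀ s, ‖c s‖ ≤ 1) :
    ∑ n : ZMod q, ‖∑ s ∈ S, c s * ((u (n + s) : ℝ) : ℂ) * ZMod.stdAddChar (n * τ s)‖ ^ 2 ≤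
      ∑ x ∈ S ×ˢ S, ‖hat (ww u (x.2 - x.1)) (τ x.1 - τ x.2)‖ := by
  have h1 : ((∑ n : ZMod q, ‖∑ s ∈ S, c s * ((u (n + s) : ℝ) : ℂ) *
        ZMod.stdAddChar (n * τ s)‖ ^ 2 : ℝ) : ℂ) =
      ∑ x ∈ S ×ˢ S, c x.1 * (starRingEnd ℂ) (c x.2) * ∑ n : ZMod q,
        ((u (n + x.1) : ℝ) : ℂ) * ((u (n + x.2) : ℝ) : ℂ) *
          ZMod.stdAddChar (n * (τ x.1 - τ x.2)) := by
    push_cast
    simp_rw [Finset.mul_sum]
    rw [Finset.sum_comm]
    refine Finset.sum_congr rfl (fun n _ => ?_)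
    rw [← Complex.mul_conj', map_sum, Finset.sum_mul_sum, ← Finset.sum_product']
    refine Finset.sum_congr rfl (fun x _ => ?_)
    rw [map_mul (starRingEnd ℂ), map_mul (starRingEnd ℂ), Complex.conj_ofReal, mul_sub,
      sub_eq_add_neg, AddChar.map_add_eq_mul, AddChar.map_neg_eq_conj]
    ring
  have h2 : ∑ n : ZMod q, ‖∑ s ∈ S, c s * ((u (n + s) : ℝ) : ℂ) *
        ZMod.stdAddChar (n * τ s)‖ ^ 2 =
      ‖((∑ n : ZMod q, ‖∑ s ∈ S, c s * ((u (n + s) : ℝ) : ℂ) *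
        ZMod.stdAddChar (n * τ s)‖ ^ 2 : ℝ) : ℂ)‖ := by
    rw [Complex.norm_real, Real.norm_eq_abs, abs_of_nonneg]
    exact Finset.sum_nonneg (fun _ _ => by positivity)
  rw [h2, h1]
  refine (norm_sum_le _ _).trans (Finset.sum_le_sum (fun x _ => ?_))
  rw [hat_shift, norm_mul, norm_mul, RCLike.norm_conj]
  have h3 : ‖c x.1‖ * ‖c x.2‖ ≤ 1 := mul_le_one₀ (hc _) (norm_nonneg _) (hc _)
  calc ‖c x.1‖ * ‖c x.2‖ * _ ≤ 1 * _ := mul_le_mul_of_nonneg_right h3 (norm_nonneg _)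
    _ = _ := one_mul _

omit [NeZero q] in
theorem energy_ge (S : Finset (ZMod q)) (τ : ZMod q → ZMod q) :
    (((S ×ˢ S) ×ˢ (S ×ˢ S)).filter (fun z : (ZMod q × ZMod q) × (ZMod q × ZMod q) =>
      ((z.1.2 - z.1.1, τ z.1.1 - τ z.1.2) : ZMod q × ZMod q) =
        (z.2.2 - z.2.1, τ z.2.1 - τ z.2.2))).card ≤
      Finset.addEnergy (graph S τ) (graph S τ) := by
  unfold Finset.addEnergy
  refine Finset.card_le_card_of_injOn (fun z => (((z.1.1, τ z.1.1), (z.1.2, τ z.1.2)),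
    ((z.2.2, τ z.2.2), (z.2.1, τ z.2.1)))) ?_ ?_
  · intro z hz
    have hz' := Finset.mem_filter.1 (Finset.mem_coe.1 hz)
    simp only [Finset.mem_product] at hz'
    obtain ⟨⟨⟨h1, h2⟩, h3, h4⟩, h5⟩ := hz'
    have h6 : z.1.2 - z.1.1 = z.2.2 - z.2.1 := congrArg Prod.fst h5
    have h7 : τ z.1.1 - τ z.1.2 = τ z.2.1 - τ z.2.2 := congrArg Prod.snd h5
    have hm : ∀ s ∈ S, (s, τ s) ∈ graph S τ := fun s hs => Finset.mem_image_of_mem _ hs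
    refine Finset.mem_coe.2 (Finset.mem_filter.2 ⟨?_, ?_⟩)
    · simp only [Finset.mem_product]
      exact ⟨⟨hm _ h1, hm _ h2⟩, hm _ h4, hm _ h3⟩
    · refine Prod.ext ?_ ?_
      · show z.1.1 + z.2.2 = z.1.2 + z.2.1
        linear_combination -h6
      · show τ z.1.1 + τ z.2.2 = τ z.1.2 + τ z.2.1
        linear_combination h7
  · intro z _ z' _ h
    obtain ⟨⟨a, b⟩, c, d⟩ := z
    obtain ⟨⟨a', b'⟩, c', d'⟩ := z'
    simp only [Prod.mk.injEq] at h ⊢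
    exact ⟨⟨h.1.1.1, h.1.2.1⟩, h.2.2.1, h.2.1.1⟩

theorem pf_C2 (hHF : T_HF) : T_C2 := by
  intro q _ u S τ δ hu hδ hS hs
  have hq : (0 : ℝ) < q := by exact_mod_cast Nat.pos_of_ne_zero (NeZero.ne q)
  have hs' : ∀ s ∈ S, δ * q ≤ ‖hat (ww u s) (τ s)‖ := hs
  choose c hc1 hc2 using fun s => exists_phase (hat (ww u s) (τ s))
  -- the first sum
  have h1 : (δ * q) ^ 2 ≤ ∑ n : ZMod q,
      ‖∑ s ∈ S, c s * ((u (n + s) : ℝ) : ℂ) * ZMod.stdAddChar (n * τ s)‖ := by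
    have h2 : (δ * q) ^ 2 ≤ ∑ s ∈ S, ‖hat (ww u s) (τ s)‖ := by
      calc (δ * q) ^ 2 = (δ * q) * (δ * q) := sq _
        _ ≤ (S.card : ℝ) * (δ * q) := by gcongr
        _ = ∑ s ∈ S, (δ * q) := by rw [Finset.sum_const, nsmul_eq_mul]
        _ ≤ _ := Finset.sum_le_sum hs'
    have h3 : ((∑ s ∈ S, ‖hat (ww u s) (τ s)‖ : ℝ) : ℂ) = ∑ n : ZMod q, ((u n : ℝ) : ℂ) *
        ∑ s ∈ S, c s * ((u (n + s) : ℝ) : ℂ) * ZMod.stdAddChar (n * τ s) := by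
      push_cast
      rw [Finset.sum_congr rfl (fun s _ => (hc2 s).symm)]
      unfold hat
      simp_rw [Finset.mul_sum]
      rw [Finset.sum_comm]
      refine Finset.sum_congr rfl (fun n _ => Finset.sum_congr rfl (fun s _ => ?_))
      unfold ww
      push_cast
      ring
    refine h2.trans ?_
    have h4 : ∑ s ∈ S, ‖hat (ww u s) (τ s)‖ = ‖((∑ s ∈ S, ‖hat (ww u s) (τ s)‖ : ℝ) : ℂ)‖ := by
      rw [Complex.norm_real, Real.norm_eq_abs, abs_of_nonneg]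
      exact Finset.sum_nonneg (fun _ _ => norm_nonneg _)
    rw [h4, h3]
    refine (norm_sum_le _ _).trans (Finset.sum_le_sum (fun n _ => ?_))
    rw [norm_mul, Complex.norm_real, Real.norm_eq_abs]
    calc |u n| * _ ≤ 1 * _ := mul_le_mul_of_nonneg_right (hu n) (norm_nonneg _)
      _ = _ := one_mul _
  have h2 : (δ * q) ^ 4 ≤ q * ∑ x ∈ S ×ˢ S, ‖hat (ww u (x.2 - x.1)) (τ x.1 - τ x.2)‖ := by
    have h3 := norm_sq_expand S c u τ hc1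
    have h4 := sq_sum_le_card_mul_sum_sq (s := (Finset.univ : Finset (ZMod q)))
      (f := fun n => ‖∑ s ∈ S, c s * ((u (n + s) : ℝ) : ℂ) * ZMod.stdAddChar (n * τ s)‖)
    rw [Finset.card_univ, ZMod.card] at h4
    calc (δ * q) ^ 4 = ((δ * q) ^ 2) ^ 2 := by ring
      _ ≤ _ := pow_le_pow_left₀ (by positivity) h1 2
      _ ≤ _ := h4
      _ ≤ _ := by gcongr
  -- the second application of the inequality of Cauchy and Schwarz
  have h3 := cs_fiber (S ×ˢ S)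
    (fun x : ZMod q × ZMod q => ((x.2 - x.1, τ x.1 - τ x.2) : ZMod q × ZMod q))
    (fun y : ZMod q × ZMod q => ‖hat (ww u y.1) y.2‖)
  have h4 : ∑ y : ZMod q × ZMod q, ‖hat (ww u y.1) y.2‖ ^ 2 ≤ (q : ℝ) ^ 3 := by
    rw [Fintype.sum_prod_type]
    have h5 : ∀ h : ZMod q, ∑ ξ, ‖hat (ww u h) ξ‖ ^ 2 ≤ (q : ℝ) ^ 2 := by
      intro h
      rw [hHF.1 q (ww u h)]
      have h6 : ∑ n, (ww u h n) ^ 2 ≤ (q : ℝ) := by
        calc ∑ n, (ww u h n) ^ 2 ≤ ∑ _n : ZMod q, (1 : ℝ) := Finset.sum_le_sum (fun n _ => by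
              unfold ww
              have h7 : |u n * u (n + h)| ≤ 1 := by
                rw [abs_mul]
                exact mul_le_one₀ (hu _) (abs_nonneg _) (hu _)
              calc (u n * u (n + h)) ^ 2 = |u n * u (n + h)| ^ 2 := (sq_abs _).symm
                _ ≤ 1 ^ 2 := pow_le_pow_left₀ (abs_nonneg _) h7 2
                _ = 1 := one_pow 2)
          _ = (q : ℝ) := by rw [Finset.sum_const, Finset.card_univ, ZMod.card, nsmul_eq_mul, mul_one]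
      calc (q : ℝ) * _ ≤ (q : ℝ) * q := by gcongr
        _ = (q : ℝ) ^ 2 := (sq _).symm
    calc _ ≤ ∑ _h : ZMod q, (q : ℝ) ^ 2 := Finset.sum_le_sum (fun h _ => h5 h)
      _ = (q : ℝ) ^ 3 := by
        rw [Finset.sum_const, Finset.card_univ, ZMod.card, nsmul_eq_mul]
        ring
  have h5 := energy_ge S τ
  obtain ⟨E, hE⟩ : ∃ E : ℝ, E = ((Finset.addEnergy (graph S τ) (graph S τ) : ℕ) : ℝ) := ⟨_, rfl⟩
  rw [← hE]
  have h6 : (((((S ×ˢ S) ×ˢ (S ×ˢ S)).filter (fun z : (ZMod q × ZMod q) × (ZMod q × ZMod q) =>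
      ((z.1.2 - z.1.1, τ z.1.1 - τ z.1.2) : ZMod q × ZMod q) =
        (z.2.2 - z.2.1, τ z.2.1 - τ z.2.2))).card : ℕ) : ℝ) ≤ E := by
    rw [hE]
    exact_mod_cast h5
  have hE0 : 0 ≤ E := by rw [hE]; positivity
  have h7 : (∑ x ∈ S ×ˢ S, ‖hat (ww u (x.2 - x.1)) (τ x.1 - τ x.2)‖) ^ 2 ≤ E * (q : ℝ) ^ 3 :=
    h3.trans (mul_le_mul h6 h4 (Finset.sum_nonneg (fun _ _ => by positivity)) hE0)
  obtain ⟨A, hA⟩ : ∃ A, A = ∑ x ∈ S ×ˢ S, ‖hat (ww u (x.2 - x.1)) (τ x.1 - τ x.2)‖ := ⟨_, rfl⟩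
  rw [← hA] at h2 h7
  have h8 : δ ^ 4 * (q : ℝ) ^ 3 ≤ A := by
    have : q * (δ ^ 4 * (q : ℝ) ^ 3) ≤ q * A := by
      calc q * (δ ^ 4 * (q : ℝ) ^ 3) = (δ * q) ^ 4 := by ring
        _ ≤ _ := h2
    exact le_of_mul_le_mul_left this hq
  have h9 : (δ ^ 8 * (q : ℝ) ^ 3) * (q : ℝ) ^ 3 ≤ E * (q : ℝ) ^ 3 := by
    calc (δ ^ 8 * (q : ℝ) ^ 3) * (q : ℝ) ^ 3 = (δ ^ 4 * (q : ℝ) ^ 3) ^ 2 := by ring
      _ ≤ A ^ 2 := pow_le_pow_left₀ (by positivity) h8 2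
      _ ≤ _ := h7
  exact le_of_mul_le_mul_right h9 (by positivity)

end Pool.Agent.H37.GU
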