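import Pool.Agent.H28.GU.TargetsC

/-!
# Energy gives a dense set on which the map is a Freiman homomorphism
-/

set_option autoImplicit false

open Finset Filter Topology
open scoped Pointwise

namespace Pool.Agent.H37.GU

open Pool.Agent.H28.GU

theorem addEnergy_le_card_cube {G : Type} [AddCommGroup G] [DecidableEq G] (A : Finset G) :
    Finset.addEnergy A A ≤ A.card ^ 3 := by
  classical
  have h1 : Finset.addEnergy A A ≤ ((A ×ˢ A) ×ˢ A).card := by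
    unfold Finset.addEnergy
    refine Finset.card_le_card_of_injOn (fun x => (x.1, x.2.1)) ?_ ?_
    · intro x hx
      have h := (Finset.mem_filter.1 hx).1
      rw [Finset.mem_product, Finset.mem_product, Finset.mem_product] at h
      refine Finset.mem_coe.2 (Finset.mem_product.2 ⟨Finset.mem_product.2 h.1, h.2.1⟩)
    · intro x hx y hy hxy
      have h1 := (Finset.mem_filter.1 hx).2
      have h2 := (Finset.mem_filter.1 hy).2
      obtain ⟨⟨x1, x2⟩, x3, x4⟩ := x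
      obtain ⟨⟨y1, y2⟩, y3, y4⟩ := y
      simp only [Prod.mk.injEq] at hxy h1 h2 ⊢
      obtain ⟨⟨rfl, rfl⟩, rfl⟩ := hxy
      exact ⟨⟨rfl, rfl⟩, rfl, add_left_cancel (h1.symm.trans h2)⟩
  refine le_trans h1 (le_of_eq ?_)
  rw [Finset.card_product, Finset.card_product]
  ring

theorem graph_mem {q : ℕ} [NeZero q] {S : Finset (ZMod q)} {τ : ZMod q → ZMod q}
    {x : ZMod q × ZMod q} (h : x ∈ graph S τ) : x.1 ∈ S ∧ x.2 = τ x.1 := by
  obtain ⟨s, hs, rfl⟩ := Finset.mem_image.1 h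
  exact ⟨hs, rfl⟩

theorem graph_card {q : ℕ} [NeZero q] (S : Finset (ZMod q)) (τ : ZMod q → ZMod q) :
    (graph S τ).card = S.card :=
  Finset.card_image_of_injective _ (fun _ _ h => congrArg Prod.fst h)

theorem pf_C3 (hBSG : T_BSG) (hFR : T_FR) : T_C3 := by
  intro δ hδ
  obtain ⟨c1, C1, hc1, hC1, hB⟩ := hBSG δ hδ
  obtain ⟨c2, hc2, hF⟩ := hFR (C1 / c1) (div_pos hC1 hc1)
  refine ⟨c2 * c1 * δ, by positivity, ?_⟩
  intro q _ S τ hE
  have hq : (0 : ℝ) < q := by exact_mod_cast (Fact.out (p := q.Prime)).pos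
  obtain ⟨Γ, hΓ⟩ : ∃ Γ, Γ = graph S τ := ⟨_, rfl⟩
  have hcard : Γ.card = S.card := by rw [hΓ]; exact graph_card S τ
  have hSq : (S.card : ℝ) ≤ q := by
    have h := Finset.card_le_univ S
    rw [ZMod.card] at h
    exact_mod_cast h
  have hE3 : ((Finset.addEnergy Γ Γ : ℕ) : ℝ) ≤ (Γ.card : ℝ) ^ 3 := by
    exact_mod_cast addEnergy_le_card_cube Γ
  rw [← hΓ] at hE
  have hc0 : (0 : ℝ) ≤ Γ.card := Nat.cast_nonneg _
  have hcq : (Γ.card : ℝ) ≤ q := by rw [hcard]; exact hSq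
  have hge : δ * q ≤ (Γ.card : ℝ) := by
    have h1 : δ * (q : ℝ) ^ 3 ≤ (Γ.card : ℝ) * (q : ℝ) ^ 2 := by
      calc δ * (q : ℝ) ^ 3 ≤ (Γ.card : ℝ) ^ 3 := hE.trans hE3
        _ = (Γ.card : ℝ) * (Γ.card : ℝ) ^ 2 := by ring
        _ ≤ (Γ.card : ℝ) * (q : ℝ) ^ 2 := by gcongr
    have h2 : (δ * q) * (q : ℝ) ^ 2 ≤ (Γ.card : ℝ) * (q : ℝ) ^ 2 := by
      calc (δ * q) * (q : ℝ) ^ 2 = δ * (q : ℝ) ^ 3 := by ring
        _ ≤ _ := h1
    exact le_of_mul_le_mul_right h2 (by positivity)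
  have hpos : (0 : ℝ) < Γ.card := lt_of_lt_of_le (by positivity) hge
  have hne : Γ.Nonempty := by
    rw [← Finset.card_pos]
    exact_mod_cast hpos
  obtain ⟨Γ₁, hs1, hg1, hd1⟩ := hB _ Γ hne (by
    refine le_trans ?_ hE
    gcongr)
  have hpos1 : (0 : ℝ) < Γ₁.card := lt_of_lt_of_le (by positivity) hg1
  have hne1 : Γ₁.Nonempty := by
    rw [← Finset.card_pos]
    exact_mod_cast hpos1
  have hinj : ∀ T : Finset (ZMod q × ZMod q), T ⊆ Γ →
      Set.InjOn Prod.fst (T : Set (ZMod q × ZMod q)) := by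
    intro T hT x hx y hy hxy
    have h1 := hT (Finset.mem_coe.1 hx)
    have h2 := hT (Finset.mem_coe.1 hy)
    rw [hΓ] at h1 h2
    refine Prod.ext hxy ?_
    rw [(graph_mem h1).2, (graph_mem h2).2, hxy]
  obtain ⟨Γ', hs2, hg2, hsum⟩ := hF q Γ₁ hne1 (hinj Γ₁ hs1) (by
    refine hd1.trans ?_
    have h1 : (Γ.card : ℝ) ≤ (Γ₁.card : ℝ) / c1 := by
      rw [le_div_iff₀ hc1]
      linarith
    calc C1 * (Γ.card : ℝ) ≤ C1 * ((Γ₁.card : ℝ) / c1) := by gcongr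
      _ = C1 / c1 * Γ₁.card := by ring)
  have hsub : Γ' ⊆ Γ := hs2.trans hs1
  refine ⟨Γ'.image Prod.fst, ?_, ?_, ?_⟩
  · intro s hs
    obtain ⟨x, hx, rfl⟩ := Finset.mem_image.1 hs
    have h1 := hsub hx
    rw [hΓ] at h1
    exact (graph_mem h1).1
  · rw [Finset.card_image_of_injOn (hinj Γ' hsub)]
    calc c2 * c1 * δ * q = c2 * (c1 * (δ * q)) := by ring
      _ ≤ c2 * (c1 * Γ.card) := by gcongr
      _ ≤ c2 * Γ₁.card := by gcongr
      _ ≤ Γ'.card := hg2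
  · intro x y hx hy hxy
    have hlift : ∀ z : Fin 6 → ZMod q, (∀ j, z j ∈ Γ'.image Prod.fst) →
        ∀ j, (z j, τ (z j)) ∈ Γ' := by
      intro z hz j
      obtain ⟨w, hw, hwz⟩ := Finset.mem_image.1 (hz j)
      have h1 := hsub hw
      rw [hΓ] at h1
      have h2 := (graph_mem h1).2
      have h3 : w = (z j, τ (z j)) := Prod.ext hwz (by rw [h2, hwz])
      rw [← h3]
      exact hw
    exact hsum (fun j => (x j, τ (x j))) (fun j => (y j, τ (y j))) (hlift x hx) (hlift y hy) hxy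

end Pool.Agent.H37.GU
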